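import Pool.Agent.H23.K9.G2.Perturb
import Pool.Agent.H58.K9G1.Main

/-!
# JOB G2, part 2: polygonal approximation of the embedding
-/

namespace Pool.Agent.H23.K9

set_option maxHeartbeats 100000

open Pool.Agent.H58.K9G1 (lab_zero lab_last lab_cases lab_ne lab_succ_ne lab_lt D4)

abbrev K9 : SimpleGraph (Fin 9) := ⊤

theorem adjK {u v : Fin 9} (h : u ≠ v) : K9.Adj u v := h

/-- positive distance of the arcs of disjoint edges -/
theorem arcs_dist (f : SpatialEmbedding K9) : ∃ δ > 0, ∀ u v u' v' : Fin 9, D4 u v u' v' →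
    ∀ s ∈ Set.Icc (0 : ℝ) 1, ∀ t ∈ Set.Icc (0 : ℝ) 1, δ ≤ dist (f.arc u v s) (f.arc u' v' t) := by
  classical
  have hq : ∀ q : Fin 9 × Fin 9 × Fin 9 × Fin 9, ∃ r : ℝ, 0 < r ∧ (D4 q.1 q.2.1 q.2.2.1 q.2.2.2 →
      ∀ s ∈ Set.Icc (0 : ℝ) 1, ∀ t ∈ Set.Icc (0 : ℝ) 1,
        r ≤ dist (f.arc q.1 q.2.1 s) (f.arc q.2.2.1 q.2.2.2 t)) := by
    rintro ⟨u, v, u', v'⟩
    by_cases hD : D4 u v u' v'
    · obtain ⟨h1, h2, h3, h4, h5, h6⟩ := hD
      have hc1 := f.arc_continuousOn u v (adjK h1)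
      have hc2 := f.arc_continuousOn u' v' (adjK h6)
      have hcomp : IsCompact (Set.Icc (0 : ℝ) 1 ×ˢ Set.Icc (0 : ℝ) 1) := isCompact_Icc.prod isCompact_Icc
      have hne : (Set.Icc (0 : ℝ) 1 ×ˢ Set.Icc (0 : ℝ) 1).Nonempty := ⟨(0, 0), by simp⟩
      have hcont : ContinuousOn (fun p : ℝ × ℝ => dist (f.arc u v p.1) (f.arc u' v' p.2))
          (Set.Icc (0 : ℝ) 1 ×ˢ Set.Icc (0 : ℝ) 1) := by
        have k1 : ContinuousOn (fun p : ℝ × ℝ => f.arc u v p.1)
            (Set.Icc (0 : ℝ) 1 ×ˢ Set.Icc (0 : ℝ) 1) :=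
          hc1.comp continuousOn_fst (fun p hp => hp.1)
        have k2 : ContinuousOn (fun p : ℝ × ℝ => f.arc u' v' p.2)
            (Set.Icc (0 : ℝ) 1 ×ˢ Set.Icc (0 : ℝ) 1) :=
          hc2.comp continuousOn_snd (fun p hp => hp.2)
        exact continuous_dist.comp_continuousOn (k1.prodMk k2)
      obtain ⟨⟨s0, t0⟩, ⟨hs0, ht0⟩, hmin⟩ := hcomp.exists_isMinOn hne hcont
      refine ⟨dist (f.arc u v s0) (f.arc u' v' t0), ?_, ?_⟩
      · apply dist_pos.mpr
        intro heq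
        have hs : s(u, v) ≠ s(u', v') := by
          intro h
          rw [Sym2.eq_iff] at h
          rcases h with ⟨h, -⟩ | ⟨h, -⟩
          · exact h2 h
          · exact h3 h
        obtain ⟨w, hw1, hw2, -⟩ := f.arc_inter u v u' v' (adjK h1) (adjK h6) hs s0 hs0 t0 ht0 heq
        rcases hw1 with rfl | rfl <;> rcases hw2 with rfl | rfl
        · exact h2 rfl
        · exact h3 rfl
        · exact h4 rfl
        · exact h5 rfl
      · intro _ s hs t ht
        exact isMinOn_iff.mp hmin (s, t) ⟨hs, ht⟩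
    · exact ⟨1, one_pos, fun h => absurd h hD⟩
  choose r hr0 hr using hq
  obtain ⟨q0, -, hq0⟩ := Finset.exists_min_image Finset.univ r ⟨(0, 0, 0, 0), Finset.mem_univ _⟩
  refine ⟨r q0, hr0 q0, ?_⟩
  intro u v u' v' hD s hs t ht
  exact (hq0 (u, v, u', v') (Finset.mem_univ _)).trans (hr (u, v, u', v') hD s hs t ht)

/-- uniform continuity of all arcs -/
theorem arcs_unif (f : SpatialEmbedding K9) (ε : ℝ) (hε : 0 < ε) : ∃ N : ℕ, 1 ≤ N ∧
    ∀ u v : Fin 9, u ≠ v → ∀ s ∈ Set.Icc (0 : ℝ) 1, ∀ t ∈ Set.Icc (0 : ℝ) 1,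
      |s - t| ≤ 1 / N → dist (f.arc u v s) (f.arc u v t) < ε := by
  classical
  have hq : ∀ q : Fin 9 × Fin 9, ∃ r : ℝ, 0 < r ∧ (q.1 ≠ q.2 →
      ∀ s ∈ Set.Icc (0 : ℝ) 1, ∀ t ∈ Set.Icc (0 : ℝ) 1, |s - t| < r →
        dist (f.arc q.1 q.2 s) (f.arc q.1 q.2 t) < ε) := by
    rintro ⟨u, v⟩
    by_cases h : u = v
    · exact ⟨1, one_pos, fun h' => absurd h h'⟩
    · have hu := isCompact_Icc.uniformContinuousOn_of_continuous (f.arc_continuousOn u v (adjK h))
      rw [Metric.uniformContinuousOn_iff] at hu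
      obtain ⟨r, hr0, hr⟩ := hu ε hε
      exact ⟨r, hr0, fun _ s hs t ht hst => hr s hs t ht hst⟩
  choose r hr0 hr using hq
  obtain ⟨q0, -, hq0⟩ := Finset.exists_min_image Finset.univ r ⟨(0, 0), Finset.mem_univ _⟩
  obtain ⟨n, hn⟩ := exists_nat_one_div_lt (hr0 q0)
  refine ⟨n + 1, by omega, ?_⟩
  intro u v huv s hs t ht hst
  refine hr (u, v) huv s hs t ht ?_
  have h1 := hq0 (u, v) (Finset.mem_univ _)
  have h2 : (1 : ℝ) / ((n + 1 : ℕ) : ℝ) = 1 / ((n : ℝ) + 1) := by push_cast; ring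
  rw [h2] at hst
  linarith

/-- sample points by label -/
noncomputable def smp (f : SpatialEmbedding K9) (N L : ℕ) : E3 :=
  if L < 9 then f.pos (Fin.ofNat 9 L)
  else f.arc (Fin.ofNat 9 ((L - 9) / N / 9)) (Fin.ofNat 9 ((L - 9) / N % 9)) (((L - 9) % N : ℕ) / (N : ℝ))

theorem smp_lab (f : SpatialEmbedding K9) {N : ℕ} (hN : 1 ≤ N) {u v : Fin 9} (huv : u ≠ v) {k : ℕ}
    (hk : k ≤ N) : smp f N (lab N u v k) = f.arc u v (k / (N : ℝ)) := by
  have hN0 : (N : ℝ) ≠ 0 := by positivity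
  have hofNat : ∀ w : Fin 9, Fin.ofNat 9 (w : ℕ) = w := by
    intro w; ext; exact Nat.mod_eq_of_lt w.2
  have hdec : ∀ (a b : Fin 9) (k : ℕ), k < N →
      (9 + (9 * (a : ℕ) + b) * N + k - 9) / N / 9 = a ∧
      (9 + (9 * (a : ℕ) + b) * N + k - 9) / N % 9 = b ∧
      (9 + (9 * (a : ℕ) + b) * N + k - 9) % N = k := by
    intro a b k hk
    have e : 9 + (9 * (a : ℕ) + b) * N + k - 9 = k + (9 * (a : ℕ) + b) * N := by omega
    have e1 : (k + (9 * (a : ℕ) + b) * N) / N = 9 * (a : ℕ) + b := by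
      rw [Nat.add_mul_div_right _ _ (by omega), Nat.div_eq_of_lt hk, zero_add]
    have e2 : (k + (9 * (a : ℕ) + b) * N) % N = k := by
      rw [Nat.add_mul_mod_self_right, Nat.mod_eq_of_lt hk]
    rw [e, e1, e2]
    have := b.2
    exact ⟨by omega, by omega, rfl⟩
  rcases lab_cases N u v k hk with ⟨h0, h1⟩ | ⟨h0, h1⟩ | ⟨o1, p1, q1, h1⟩ | ⟨o1, p1, q1, h1⟩
  · rw [h1, h0, smp, if_pos u.2, hofNat, Nat.cast_zero, zero_div, f.arc_zero u v (adjK huv)]
  · rw [h1, h0, smp, if_pos v.2, hofNat, div_self hN0, f.arc_one u v (adjK huv)]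
  · obtain ⟨e1, e2, e3⟩ := hdec u v k q1
    rw [h1, smp, if_neg (by omega), e1, e2, e3, hofNat, hofNat]
  · obtain ⟨e1, e2, e3⟩ := hdec v u (N - k) (by omega)
    rw [h1, smp, if_neg (by omega), e1, e2, e3, hofNat, hofNat, Nat.cast_sub hk,
      f.arc_symm u v (adjK huv)]
    · congr 1
      field_simp
      ring
    · rw [sub_div, div_self hN0]
      have : (k : ℝ) / N ≤ 1 := by
        rw [div_le_one (by positivity)]; exact_mod_cast hk
      have h2 : (0 : ℝ) ≤ (k : ℝ) / N := by positivity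
      exact ⟨by linarith, by linarith⟩

/-- value of the closed curve on `[a, a + 1]` -/
theorem curve_at (f : SpatialEmbedding K9) (C : GCycle K9) (a : ℕ) (θ : ℝ)
    (hθ : θ ∈ Set.Icc (0 : ℝ) 1) :
    f.curve C (a + θ) = f.arc (C.vert (a : ZMod C.len)) (C.vert ((a : ZMod C.len) + 1)) θ := by
  rcases eq_or_lt_of_le hθ.2 with h1 | h1
  · subst h1
    have hfl : ⌊(a : ℝ) + 1⌋ = (a : ℤ) + 1 := by
      rw [Int.floor_add_one, Int.floor_natCast]
    have hfr : Int.fract ((a : ℝ) + 1) = 0 := by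
      rw [Int.fract, hfl]; push_cast; ring
    rw [SpatialEmbedding.curve, hfl, hfr]
    push_cast
    rw [f.arc_zero _ _ (C.adj _), f.arc_one _ _ (C.adj _)]
  · have hfl : ⌊(a : ℝ) + θ⌋ = (a : ℤ) := by
      rw [Int.floor_eq_iff]
      push_cast
      exact ⟨by linarith [hθ.1], by linarith⟩
    have hfr : Int.fract ((a : ℝ) + θ) = θ := by
      rw [Int.fract, hfl]; push_cast; ring
    rw [SpatialEmbedding.curve, hfl, hfr]
    push_cast
    rfl

theorem curve_eq (f : SpatialEmbedding K9) (C : GCycle K9) (s : ℝ) (hs : 0 ≤ s) :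
    ∃ a : ℕ, ∃ θ ∈ Set.Icc (0 : ℝ) 1,
      f.curve C s = f.arc (C.vert (a : ZMod C.len)) (C.vert ((a : ZMod C.len) + 1)) θ := by
  refine ⟨⌊s⌋₊, s - ⌊s⌋₊, ⟨?_, ?_⟩, ?_⟩
  · linarith [Nat.floor_le hs]
  · linarith [Nat.lt_floor_add_one s]
  · rw [← curve_at f C ⌊s⌋₊ (s - ⌊s⌋₊)]
    · congr 1; ring
    · exact ⟨by linarith [Nat.floor_le hs], by linarith [Nat.lt_floor_add_one s]⟩

/-- the polygon of a cycle -/
def pol (Y : ℕ → E3) (N : ℕ) (C : GCycle K9) (l : ℕ) : E3 :=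
  Y (lab N (C.vert ((l / N : ℕ) : ZMod C.len)) (C.vert (((l / N : ℕ) : ZMod C.len) + 1)) (l % N))

theorem pol_at (Y : ℕ → E3) {N : ℕ} (hN : 1 ≤ N) (C : GCycle K9) (a k : ℕ) (hk : k ≤ N) :
    pol Y N C (a * N + k) =
      Y (lab N (C.vert (a : ZMod C.len)) (C.vert ((a : ZMod C.len) + 1)) k) := by
  rcases eq_or_lt_of_le hk with h1 | h1
  · subst h1
    have e1 : (a * k + k) / k = a + 1 := by
      have : a * k + k = (a + 1) * k := by ring
      rw [this, Nat.mul_div_cancel _ (by omega)]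
    have e2 : (a * k + k) % k = 0 := by
      have : a * k + k = (a + 1) * k := by ring
      rw [this, Nat.mul_mod_left]
    rw [pol, e1, e2, lab_zero, lab_last hN]
    push_cast
    rfl
  · have e1 : (a * N + k) / N = a := by
      rw [add_comm, Nat.add_mul_div_right _ _ (by omega), Nat.div_eq_of_lt h1, zero_add]
    have e2 : (a * N + k) % N = k := by
      rw [add_comm, Nat.add_mul_mod_self_right, Nat.mod_eq_of_lt h1]
    rw [pol, e1, e2]

theorem pol_at' (Y : ℕ → E3) {N : ℕ} (hN : 1 ≤ N) (C : GCycle K9) (l : ℕ) :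
    pol Y N C l = Y (lab N (C.vert ((l / N : ℕ) : ZMod C.len))
      (C.vert (((l / N : ℕ) : ZMod C.len) + 1)) (l % N)) ∧
    pol Y N C (l + 1) = Y (lab N (C.vert ((l / N : ℕ) : ZMod C.len))
      (C.vert (((l / N : ℕ) : ZMod C.len) + 1)) (l % N + 1)) := by
  have h := Nat.div_add_mod l N
  have hlt : l % N < N := Nat.mod_lt _ (by omega)
  constructor
  · rfl
  · have e : l + 1 = (l / N) * N + (l % N + 1) := by
      rw [mul_comm] at h; omega
    conv_lhs => rw [e]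
    exact pol_at Y hN C (l / N) (l % N + 1) hlt

theorem sum_blocks (F : ℕ → ℤ) (N : ℕ) : ∀ L : ℕ, ∑ l ∈ Finset.range (L * N), F l =
    ∑ a ∈ Finset.range L, ∑ k ∈ Finset.range N, F (a * N + k)
  | 0 => by simp
  | L + 1 => by
    rw [add_mul, one_mul, Finset.sum_range_add, sum_blocks F N L, Finset.sum_range_succ]

theorem follows_pol (f : SpatialEmbedding K9) {N : ℕ} (hN : 1 ≤ N) (ε : ℝ) (Y : ℕ → E3)
    (hY : ∀ i < labBound N, dist (Y i) (smp f N i) < ε / 2)
    (hunif : ∀ u v : Fin 9, u ≠ v → ∀ s ∈ Set.Icc (0 : ℝ) 1, ∀ t ∈ Set.Icc (0 : ℝ) 1,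
      |s - t| ≤ 1 / N → dist (f.arc u v s) (f.arc u v t) < ε / 2) (C : GCycle K9) :
    Follows (f.curve C) C.len ε (C.len * N) (pol Y N C) (fun l => (l : ℝ) / N) := by
  have hN0 : (0 : ℝ) < N := by exact_mod_cast hN
  refine ⟨?_, ?_, ?_, ?_, ?_⟩
  · have h1 := pol_at Y hN C C.len 0 (by omega)
    have h2 := pol_at Y hN C 0 0 (by omega)
    rw [add_zero] at h1
    rw [zero_mul, add_zero] at h2
    rw [h1, h2, ZMod.natCast_self, Nat.cast_zero]
  · simp
  · push_cast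
    field_simp
  · intro i _
    have : (i : ℝ) ≤ ((i + 1 : ℕ) : ℝ) := by push_cast; linarith
    show (i : ℝ) / N ≤ ((i + 1 : ℕ) : ℝ) / N
    gcongr
  · intro i hi t ht
    obtain ⟨ht1, ht2⟩ := ht
    set a := i / N with ha
    set k := i % N with hk
    have hik : i = a * N + k := by
      have := Nat.div_add_mod i N
      rw [mul_comm] at this
      exact this.symm
    have hkN : k < N := Nat.mod_lt _ (by omega)
    have huv : C.vert ((a : ℕ) : ZMod C.len) ≠ C.vert (((a : ℕ) : ZMod C.len) + 1) := C.adj _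
    have hcast : (i : ℝ) = a * N + k := by exact_mod_cast hik
    simp only [Nat.cast_add, Nat.cast_one] at ht2
    rw [hcast] at ht1 ht2
    have e1 : ((a : ℝ) * N + k) / N = a + k / N := by field_simp
    have e2 : ((a : ℝ) * N + k + 1) / N = a + (k + 1) / N := by field_simp; ring
    rw [e1] at ht1
    rw [e2] at ht2
    have hk1 : ((k : ℝ) + 1) / N ≤ 1 := by
      rw [div_le_one hN0]; exact_mod_cast hkN
    have hk0 : (0 : ℝ) ≤ (k : ℝ) / N := by positivity
    have hkk : ((k : ℝ) + 1) / N = k / N + 1 / N := by ring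
    have hN1 : (0 : ℝ) < 1 / N := by positivity
    have hθ : t - a ∈ Set.Icc (0 : ℝ) 1 := ⟨by linarith, by linarith⟩
    have hcurve : f.curve C t = f.arc (C.vert ((a : ℕ) : ZMod C.len))
        (C.vert (((a : ℕ) : ZMod C.len) + 1)) (t - a) := by
      rw [← curve_at f C a (t - a) hθ]
      congr 1; ring
    have hp := pol_at' Y hN C i
    rw [← ha, ← hk] at hp
    rw [hp.1, hp.2, hcurve]
    have key : ∀ j : ℕ, j ≤ N → |t - a - (j : ℝ) / N| ≤ 1 / N →
        dist (f.arc (C.vert ((a : ℕ) : ZMod C.len)) (C.vert (((a : ℕ) : ZMod C.len) + 1)) (t - a))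
          (Y (lab N (C.vert ((a : ℕ) : ZMod C.len)) (C.vert (((a : ℕ) : ZMod C.len) + 1)) j)) < ε := by
      intro j hj hjt
      have hjI : (j : ℝ) / N ∈ Set.Icc (0 : ℝ) 1 :=
        ⟨by positivity, by rw [div_le_one hN0]; exact_mod_cast hj⟩
      have h1 := hunif _ _ huv (t - a) hθ ((j : ℝ) / N) hjI hjt
      have h2 := hY _ (lab_lt hN (C.vert ((a : ℕ) : ZMod C.len))
        (C.vert (((a : ℕ) : ZMod C.len) + 1)) hj)
      rw [smp_lab f hN huv hj, dist_comm] at h2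
      calc _ ≤ _ := dist_triangle _ _ _
        _ < ε / 2 + ε / 2 := add_lt_add h1 h2
        _ = ε := by ring
    constructor
    · apply key k hkN.le
      rw [abs_le]
      constructor <;> linarith
    · apply key (k + 1) hkN
      push_cast
      rw [abs_le]
      constructor <;> linarith

theorem jobG2 : JobG2 := by
  intro f
  obtain ⟨δ, hδ, hdist⟩ := arcs_dist f
  obtain ⟨N, hN, hunif⟩ := arcs_unif f (δ / 2 / 2) (by positivity)
  obtain ⟨Y, hgen, hY⟩ := exists_generic (smp f N) (labBound N) (δ / 2 / 2) (by positivity)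
  refine ⟨Y, N, hN, hgen, ?_⟩
  intro C D hCD n hn
  have hD4 : ∀ (i : ZMod C.len) (j : ZMod D.len),
      D4 (C.vert i) (C.vert (i + 1)) (D.vert j) (D.vert (j + 1)) := fun i j =>
    ⟨C.adj i, hCD _ _, hCD _ _, hCD _ _, hCD _ _, D.adj j⟩
  refine ⟨δ / 2, by positivity, ?_, C.len * N, pol Y N C, fun l => (l : ℝ) / N, D.len * N,
    pol Y N D, fun l => (l : ℝ) / N, follows_pol f hN _ Y hY hunif C,
    follows_pol f hN _ Y hY hunif D, ?_, ?_⟩
  · intro s hs t ht
    obtain ⟨a, θ, hθ, h1⟩ := curve_eq f C s hs.1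
    obtain ⟨b, η, hη, h2⟩ := curve_eq f D t ht.1
    rw [h1, h2]
    have := hdist _ _ _ _ (hD4 (a : ZMod C.len) (b : ZMod D.len)) θ hθ η hη
    linarith
  · intro i _ j _
    have hk : i % N < N := Nat.mod_lt _ (by omega)
    have hl : j % N < N := Nat.mod_lt _ (by omega)
    obtain ⟨p1, p2⟩ := pol_at' Y hN C i
    obtain ⟨q1, q2⟩ := pol_at' Y hN D j
    have h4 := hD4 ((i / N : ℕ) : ZMod C.len) ((j / N : ℕ) : ZMod D.len)
    set u := C.vert ((i / N : ℕ) : ZMod C.len)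
    set v := C.vert (((i / N : ℕ) : ZMod C.len) + 1)
    set u' := D.vert ((j / N : ℕ) : ZMod D.len)
    set v' := D.vert (((j / N : ℕ) : ZMod D.len) + 1)
    rw [p1, p2, q1, q2]
    have A := lab_lt hN u v hk.le
    have A' := lab_lt hN u v (k := i % N + 1) hk
    have B := lab_lt hN u' v' hl.le
    have B' := lab_lt hN u' v' (k := j % N + 1) hl
    have n1 := lab_succ_ne h4.1 hk
    have n2 := lab_succ_ne h4.2.2.2.2.2 hl
    have n3 := lab_ne h4 hk.le hl.le
    have n4 := lab_ne h4 hk.le (l := j % N + 1) hl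
    have n5 := lab_ne h4 (k := i % N + 1) hk hl.le
    have n6 := lab_ne h4 (k := i % N + 1) hk (l := j % N + 1) hl
    refine ⟨hgen.planar _ A _ A' _ B n1 n3 n5, hgen.planar _ B _ B' _ A n2 n3.symm n4.symm,
      hgen.space _ A _ A' _ B _ B' n1 n3 n4 n5 n6 n2⟩
  · rw [hn, cycSum, sum_blocks]
    apply Finset.sum_congr rfl
    intro a _
    have e : ∀ k ∈ Finset.range N, (∑ j ∈ Finset.range (D.len * N),
        crossSign (pol Y N C (a * N + k)) (pol Y N C (a * N + k + 1)) (pol Y N D j)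
          (pol Y N D (j + 1))) = ∑ b ∈ Finset.range D.len, ∑ l ∈ Finset.range N,
        crossSign (Y (lab N (C.vert (a : ZMod C.len)) (C.vert ((a : ZMod C.len) + 1)) k))
          (Y (lab N (C.vert (a : ZMod C.len)) (C.vert ((a : ZMod C.len) + 1)) (k + 1)))
          (Y (lab N (D.vert (b : ZMod D.len)) (D.vert ((b : ZMod D.len) + 1)) l))
          (Y (lab N (D.vert (b : ZMod D.len)) (D.vert ((b : ZMod D.len) + 1)) (l + 1))) := by
      intro k hk
      rw [Finset.mem_range] at hk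
      rw [sum_blocks]
      apply Finset.sum_congr rfl
      intro b _
      apply Finset.sum_congr rfl
      intro l hl
      rw [Finset.mem_range] at hl
      rw [pol_at Y hN C a k hk.le, add_assoc, pol_at Y hN C a (k + 1) hk,
        pol_at Y hN D b l hl.le, add_assoc, pol_at Y hN D b (l + 1) hl]
    rw [Finset.sum_congr rfl e, Finset.sum_comm]
    apply Finset.sum_congr rfl
    intro b _
    obtain ⟨h1, h2, h3, h4, h5, h6⟩ := hD4 (a : ZMod C.len) (b : ZMod D.len)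
    rw [crossMat, if_pos ⟨h1, h2, h3, h4, h5, h6⟩]

end Pool.Agent.H23.K9
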