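import Pool.Agent.H23.K9.Interface

/-!
# JOB G2, part 1: perturbation into general position
-/

namespace Pool.Agent.H23.K9

open Polynomial in
theorem cubic_finite (a b c d : ℝ) (h : a ≠ 0 ∨ b ≠ 0 ∨ c ≠ 0) :
    {t : ℝ | a * t ^ 3 + b * t ^ 2 + c * t + d = 0}.Finite := by
  have hp : (C a * X ^ 3 + C b * X ^ 2 + C c * X + C d : ℝ[X]) ≠ 0 := by
    intro h0
    have h3 := congrArg (fun p => Polynomial.coeff p 3) h0
    have h2 := congrArg (fun p => Polynomial.coeff p 2) h0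
    have h1 := congrArg (fun p => Polynomial.coeff p 1) h0
    simp [coeff_X, coeff_C] at h1 h2 h3
    tauto
  refine (Polynomial.finite_setOf_isRoot hp).subset ?_
  intro t ht
  simp only [Set.mem_setOf_eq, IsRoot.def, eval_add, eval_mul, eval_pow, eval_C, eval_X]
  exact ht

/-- the moment curve -/
noncomputable def mom (i : ℕ) : E3 := !₂[(i : ℝ), (i : ℝ) ^ 2, (i : ℝ) ^ 3]

/-- perturbed points -/
noncomputable def pert (x : ℕ → E3) (t : ℝ) (i : ℕ) : E3 := x i + t • mom i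

theorem pert_zero (x : ℕ → E3) (t : ℝ) (i : ℕ) : pert x t i 0 = x i 0 + t * i := by
  simp [pert, mom]

theorem pert_one (x : ℕ → E3) (t : ℝ) (i : ℕ) : pert x t i 1 = x i 1 + t * (i : ℝ) ^ 2 := by
  simp [pert, mom]

theorem pert_two (x : ℕ → E3) (t : ℝ) (i : ℕ) : pert x t i 2 = x i 2 + t * (i : ℝ) ^ 3 := by
  simp [pert, mom]

theorem bad1 (x : ℕ → E3) (i j : ℕ) (hij : i ≠ j) : {t : ℝ | pert x t i 0 = pert x t j 0}.Finite := by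
  have h : ((i : ℝ) - j) ≠ 0 := sub_ne_zero.mpr (by exact_mod_cast hij)
  refine (cubic_finite 0 0 ((i : ℝ) - j) (x i 0 - x j 0) (Or.inr (Or.inr h))).subset ?_
  intro t ht
  simp only [Set.mem_setOf_eq, pert_zero] at ht ⊢
  linarith

theorem bad2 (x : ℕ → E3) (i j k : ℕ) (hij : i ≠ j) (hik : i ≠ k) (hjk : j ≠ k) :
    {t : ℝ | planarDet (pert x t i) (pert x t j) (pert x t k) = 0}.Finite := by
  have h1 : ((j : ℝ) - i) ≠ 0 := sub_ne_zero.mpr (by exact_mod_cast hij.symm)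
  have h2 : ((k : ℝ) - i) ≠ 0 := sub_ne_zero.mpr (by exact_mod_cast hik.symm)
  have h3 : ((k : ℝ) - j) ≠ 0 := sub_ne_zero.mpr (by exact_mod_cast hjk.symm)
  refine (cubic_finite 0 (((j : ℝ) - i) * ((k : ℝ) - i) * ((k : ℝ) - j))
    (((j : ℝ) - i) * (x k 1 - x i 1) + (x j 0 - x i 0) * ((k : ℝ) ^ 2 - (i : ℝ) ^ 2)
      - ((j : ℝ) ^ 2 - (i : ℝ) ^ 2) * (x k 0 - x i 0) - (x j 1 - x i 1) * ((k : ℝ) - i))
    ((x j 0 - x i 0) * (x k 1 - x i 1) - (x j 1 - x i 1) * (x k 0 - x i 0))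
    (Or.inr (Or.inl (mul_ne_zero (mul_ne_zero h1 h2) h3)))).subset ?_
  intro t ht
  simp only [Set.mem_setOf_eq, planarDet, pert_zero, pert_one] at ht ⊢
  linear_combination ht

/-- `3 × 3` determinant -/
def det3 (b0 b1 b2 c0 c1 c2 d0 d1 d2 : ℝ) : ℝ :=
  b0 * (c1 * d2 - c2 * d1) - b1 * (c0 * d2 - c2 * d0) + b2 * (c0 * d1 - c1 * d0)

theorem bad3 (x : ℕ → E3) (i j k l : ℕ) (hij : i ≠ j) (hik : i ≠ k) (hil : i ≠ l) (hjk : j ≠ k)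
    (hjl : j ≠ l) (hkl : k ≠ l) :
    {t : ℝ | spaceDet (pert x t i) (pert x t j) (pert x t k) (pert x t l) = 0}.Finite := by
  have h1 : ((j : ℝ) - i) ≠ 0 := sub_ne_zero.mpr (by exact_mod_cast hij.symm)
  have h2 : ((k : ℝ) - i) ≠ 0 := sub_ne_zero.mpr (by exact_mod_cast hik.symm)
  have h3 : ((l : ℝ) - i) ≠ 0 := sub_ne_zero.mpr (by exact_mod_cast hil.symm)
  have h4 : ((k : ℝ) - j) ≠ 0 := sub_ne_zero.mpr (by exact_mod_cast hjk.symm)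
  have h5 : ((l : ℝ) - j) ≠ 0 := sub_ne_zero.mpr (by exact_mod_cast hjl.symm)
  have h6 : ((l : ℝ) - k) ≠ 0 := sub_ne_zero.mpr (by exact_mod_cast hkl.symm)
  have hV : det3 ((j : ℝ) - i) ((j : ℝ) ^ 2 - (i : ℝ) ^ 2) ((j : ℝ) ^ 3 - (i : ℝ) ^ 3)
      ((k : ℝ) - i) ((k : ℝ) ^ 2 - (i : ℝ) ^ 2) ((k : ℝ) ^ 3 - (i : ℝ) ^ 3)
      ((l : ℝ) - i) ((l : ℝ) ^ 2 - (i : ℝ) ^ 2) ((l : ℝ) ^ 3 - (i : ℝ) ^ 3)
      = ((j : ℝ) - i) * ((k : ℝ) - i) * ((l : ℝ) - i) * ((k : ℝ) - j) * ((l : ℝ) - j)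
        * ((l : ℝ) - k) := by
    unfold det3; ring
  have hV' : det3 ((j : ℝ) - i) ((j : ℝ) ^ 2 - (i : ℝ) ^ 2) ((j : ℝ) ^ 3 - (i : ℝ) ^ 3)
      ((k : ℝ) - i) ((k : ℝ) ^ 2 - (i : ℝ) ^ 2) ((k : ℝ) ^ 3 - (i : ℝ) ^ 3)
      ((l : ℝ) - i) ((l : ℝ) ^ 2 - (i : ℝ) ^ 2) ((l : ℝ) ^ 3 - (i : ℝ) ^ 3) ≠ 0 := by
    rw [hV]
    exact mul_ne_zero (mul_ne_zero (mul_ne_zero (mul_ne_zero (mul_ne_zero h1 h2) h3) h4) h5) h6
  set b0 := (j : ℝ) - i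
  set b1 := (j : ℝ) ^ 2 - (i : ℝ) ^ 2
  set b2 := (j : ℝ) ^ 3 - (i : ℝ) ^ 3
  set c0 := (k : ℝ) - i
  set c1 := (k : ℝ) ^ 2 - (i : ℝ) ^ 2
  set c2 := (k : ℝ) ^ 3 - (i : ℝ) ^ 3
  set d0 := (l : ℝ) - i
  set d1 := (l : ℝ) ^ 2 - (i : ℝ) ^ 2
  set d2 := (l : ℝ) ^ 3 - (i : ℝ) ^ 3
  set B0 := x j 0 - x i 0
  set B1 := x j 1 - x i 1
  set B2 := x j 2 - x i 2
  set C0 := x k 0 - x i 0
  set C1 := x k 1 - x i 1
  set C2 := x k 2 - x i 2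
  set D0 := x l 0 - x i 0
  set D1 := x l 1 - x i 1
  set D2 := x l 2 - x i 2
  refine (cubic_finite _
    (det3 B0 B1 B2 c0 c1 c2 d0 d1 d2 + det3 b0 b1 b2 C0 C1 C2 d0 d1 d2
      + det3 b0 b1 b2 c0 c1 c2 D0 D1 D2)
    (det3 B0 B1 B2 C0 C1 C2 d0 d1 d2 + det3 B0 B1 B2 c0 c1 c2 D0 D1 D2
      + det3 b0 b1 b2 C0 C1 C2 D0 D1 D2)
    (det3 B0 B1 B2 C0 C1 C2 D0 D1 D2) (Or.inl hV')).subset ?_
  intro t ht
  simp only [Set.mem_setOf_eq, spaceDet, pert_zero, pert_one, pert_two] at ht ⊢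
  simp only [det3, b0, b1, b2, c0, c1, c2, d0, d1, d2, B0, B1, B2, C0, C1, C2, D0, D1, D2]
  linear_combination ht

theorem exists_generic (x : ℕ → E3) (M : ℕ) (ε : ℝ) (hε : 0 < ε) :
    ∃ Y : ℕ → E3, Generic Y M ∧ ∀ i < M, dist (Y i) (x i) < ε := by
  classical
  let S1 : Set ℝ := ⋃ p : {p : Fin M × Fin M // p.1 ≠ p.2},
    {t : ℝ | pert x t p.1.1 0 = pert x t p.1.2 0}
  let S2 : Set ℝ := ⋃ p : {p : Fin M × Fin M × Fin M // p.1 ≠ p.2.1 ∧ p.1 ≠ p.2.2 ∧ p.2.1 ≠ p.2.2},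
    {t : ℝ | planarDet (pert x t p.1.1) (pert x t p.1.2.1) (pert x t p.1.2.2) = 0}
  let S3 : Set ℝ := ⋃ p : {p : Fin M × Fin M × Fin M × Fin M // p.1 ≠ p.2.1 ∧ p.1 ≠ p.2.2.1 ∧
      p.1 ≠ p.2.2.2 ∧ p.2.1 ≠ p.2.2.1 ∧ p.2.1 ≠ p.2.2.2 ∧ p.2.2.1 ≠ p.2.2.2},
    {t : ℝ | spaceDet (pert x t p.1.1) (pert x t p.1.2.1) (pert x t p.1.2.2.1)
      (pert x t p.1.2.2.2) = 0}
  have hS1 : S1.Finite := by
    apply Set.finite_iUnion
    rintro ⟨⟨i, j⟩, h⟩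
    exact bad1 x i j (fun e => h (Fin.ext e))
  have hS2 : S2.Finite := by
    apply Set.finite_iUnion
    rintro ⟨⟨i, j, k⟩, h1, h2, h3⟩
    exact bad2 x i j k (fun e => h1 (Fin.ext e)) (fun e => h2 (Fin.ext e))
      (fun e => h3 (Fin.ext e))
  have hS3 : S3.Finite := by
    apply Set.finite_iUnion
    rintro ⟨⟨i, j, k, l⟩, h1, h2, h3, h4, h5, h6⟩
    exact bad3 x i j k l (fun e => h1 (Fin.ext e)) (fun e => h2 (Fin.ext e))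
      (fun e => h3 (Fin.ext e)) (fun e => h4 (Fin.ext e)) (fun e => h5 (Fin.ext e))
      (fun e => h6 (Fin.ext e))
  -- bound for the moment curve
  obtain ⟨R, hR0, hR⟩ : ∃ R : ℝ, 0 < R ∧ ∀ i < M, ‖mom i‖ < R := by
    refine ⟨(∑ i ∈ Finset.range M, ‖mom i‖) + 1, by positivity, ?_⟩
    intro i hi
    have : ‖mom i‖ ≤ ∑ i ∈ Finset.range M, ‖mom i‖ :=
      Finset.single_le_sum (f := fun i => ‖mom i‖) (fun _ _ => norm_nonneg _)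
        (Finset.mem_range.mpr hi)
    linarith
  have ht0 : 0 < ε / R := div_pos hε hR0
  obtain ⟨t, ⟨ht1, ht2⟩, htS⟩ :=
    ((Set.Ioo_infinite ht0).diff ((hS1.union hS2).union hS3)).nonempty
  simp only [Set.mem_union, not_or] at htS
  obtain ⟨⟨n1, n2⟩, n3⟩ := htS
  refine ⟨pert x t, ⟨?_, ?_, ?_⟩, ?_⟩
  · intro i hi j hj hij h
    apply n1
    simp only [S1, Set.mem_iUnion]
    exact ⟨⟨(⟨i, hi⟩, ⟨j, hj⟩), fun e => hij (congrArg Fin.val e)⟩, h⟩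
  · intro i hi j hj k hk hij hik hjk h
    apply n2
    simp only [S2, Set.mem_iUnion]
    exact ⟨⟨(⟨i, hi⟩, ⟨j, hj⟩, ⟨k, hk⟩), fun e => hij (congrArg Fin.val e),
      fun e => hik (congrArg Fin.val e), fun e => hjk (congrArg Fin.val e)⟩, h⟩
  · intro i hi j hj k hk l hl hij hik hil hjk hjl hkl h
    apply n3
    simp only [S3, Set.mem_iUnion]
    exact ⟨⟨(⟨i, hi⟩, ⟨j, hj⟩, ⟨k, hk⟩, ⟨l, hl⟩), fun e => hij (congrArg Fin.val e),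
      fun e => hik (congrArg Fin.val e), fun e => hil (congrArg Fin.val e),
      fun e => hjk (congrArg Fin.val e), fun e => hjl (congrArg Fin.val e),
      fun e => hkl (congrArg Fin.val e)⟩, h⟩
  · intro i hi
    have : dist (pert x t i) (x i) = t * ‖mom i‖ := by
      rw [dist_eq_norm, pert, add_sub_cancel_left, norm_smul, Real.norm_eq_abs, abs_of_pos ht1]
    rw [this]
    have h1 := hR i hi
    calc t * ‖mom i‖ ≤ t * R := by gcongr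
      _ < ε / R * R := by gcongr
      _ = ε := by field_simp

end Pool.Agent.H23.K9
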